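import Mathlib

set_option autoImplicit false

/-! Zykov type graphs lie in the closure of the graphs on at most two vertices under
substitution and gluing along at most two vertices. -/

namespace Pool.Agent.H112R3.SubstGlue

/-- the closure properties of a predicate on graphs -/
structure Closed (k : ℕ) (P : ∀ n : ℕ, SimpleGraph (Fin n) → Prop) : Prop where
  base : ∀ (n₀ : ℕ) (G₀ : SimpleGraph (Fin n₀)), n₀ ≤ 2 → P n₀ G₀
  iso : ∀ (n₁ n₂ : ℕ) (G₁ : SimpleGraph (Fin n₁)) (G₂ : SimpleGraph (Fin n₂)),
            P n₁ G₁ → Nonempty (SimpleGraph.Iso G₁ G₂) → P n₂ G₂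
  subst : ∀ (a b n₀ : ℕ) (G₁ : SimpleGraph (Fin a)) (G₂ : SimpleGraph (Fin b))
            (H : SimpleGraph (Fin n₀)) (v : Fin a) (p : Fin n₀ → Fin a) (q : Fin b → Fin n₀),
            P a G₁ → P b G₂ → Function.Injective q → Function.Surjective p →
            (∀ x, p x = v ↔ x ∈ Set.range q) →
            (∀ x y, p x = p y → p x ≠ v → x = y) →
            (∀ x y, (p x ≠ v ∨ p y ≠ v) → (H.Adj x y ↔ G₁.Adj (p x) (p y))) →
            (∀ i j, H.Adj (q i) (q j) ↔ G₂.Adj i j) →
            P n₀ H
  glue : ∀ (a b n₀ : ℕ) (G₁ : SimpleGraph (Fin a)) (G₂ : SimpleGraph (Fin b))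
            (H : SimpleGraph (Fin n₀)) (f₁ : Fin a → Fin n₀) (f₂ : Fin b → Fin n₀),
            P a G₁ → P b G₂ → Function.Injective f₁ → Function.Injective f₂ →
            (∀ i j, H.Adj (f₁ i) (f₁ j) ↔ G₁.Adj i j) →
            (∀ i j, H.Adj (f₂ i) (f₂ j) ↔ G₂.Adj i j) →
            (∀ x, x ∈ Set.range f₁ ∨ x ∈ Set.range f₂) →
            (Set.range f₁ ∩ Set.range f₂).ncard ≤ k →
            (∀ x y, x ∉ Set.range f₂ → y ∉ Set.range f₁ → ¬ H.Adj x y) →
            P n₀ H

/-- membership in the closure, for graphs on an arbitrary type -/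
def InCl {V : Type} (G : SimpleGraph V) : Prop :=
  ∀ P : ∀ n : ℕ, SimpleGraph (Fin n) → Prop, Closed 2 P →
    ∀ (n : ℕ) (H : SimpleGraph (Fin n)), Nonempty (H ≃g G) → P n H

lemma InCl.congr {V W : Type} {G : SimpleGraph V} {G' : SimpleGraph W} (h : InCl G)
    (e : G' ≃g G) : InCl G' := by
  intro P hP n H ⟨i⟩
  exact h P hP n H ⟨i.trans e⟩

/-- transport a graph on a finite type to `Fin n` -/
lemma exists_fin {V : Type} [Finite V] (G : SimpleGraph V) :
    ∃ (n : ℕ) (H : SimpleGraph (Fin n)), Nonempty (H ≃g G) := by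
  obtain ⟨n, ⟨e⟩⟩ := Finite.exists_equiv_fin V
  exact ⟨n, G.comap e.symm, ⟨SimpleGraph.Iso.comap e.symm G⟩⟩

lemma inCl_small {V : Type} [Finite V] (G : SimpleGraph V) (h : Nat.card V ≤ 2) : InCl G := by
  intro P hP n H ⟨i⟩
  apply hP.base
  have := Nat.card_congr i.toEquiv
  simp at this
  omega

/-- gluing inside an ambient graph -/
lemma inCl_glue {V : Type} [Finite V] (G : SimpleGraph V) (A B : Set V)
    (hA : InCl (G.induce A)) (hB : InCl (G.induce B)) (hAB : A ∪ B = Set.univ)
    (hcard : (A ∩ B).ncard ≤ 2)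
    (hsep : ∀ x y, x ∉ B → y ∉ A → ¬ G.Adj x y) : InCl G := by
  intro P hP n H ⟨i⟩
  obtain ⟨a, G₁, ⟨e₁⟩⟩ := exists_fin (G.induce A)
  obtain ⟨b, G₂, ⟨e₂⟩⟩ := exists_fin (G.induce B)
  have h1 : P a G₁ := hA P hP a G₁ ⟨e₁⟩
  have h2 : P b G₂ := hB P hP b G₂ ⟨e₂⟩
  have r1 : Set.range (fun x => i.symm (e₁ x : V)) = i ⁻¹' A := by
    ext x
    simp only [Set.mem_range, Set.mem_preimage]
    constructor
    · rintro ⟨y, rfl⟩
      simp
    · intro hx
      refine ⟨e₁.symm ⟨i x, hx⟩, ?_⟩
      simp
  have r2 : Set.range (fun x => i.symm (e₂ x : V)) = i ⁻¹' B := by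
    ext x
    simp only [Set.mem_range, Set.mem_preimage]
    constructor
    · rintro ⟨y, rfl⟩
      simp
    · intro hx
      refine ⟨e₂.symm ⟨i x, hx⟩, ?_⟩
      simp
  refine hP.glue a b n G₁ G₂ H (fun x => i.symm (e₁ x : V)) (fun x => i.symm (e₂ x : V)) h1 h2
    ?_ ?_ ?_ ?_ ?_ ?_ ?_
  · intro x y hxy
    have := i.symm.injective hxy
    exact e₁.injective (Subtype.ext this)
  · intro x y hxy
    have := i.symm.injective hxy
    exact e₂.injective (Subtype.ext this)
  · intro x y
    rw [i.symm.map_adj_iff, ← e₁.map_adj_iff]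
    rfl
  · intro x y
    rw [i.symm.map_adj_iff, ← e₂.map_adj_iff]
    rfl
  · intro x
    rw [r1, r2]
    have : i x ∈ A ∪ B := by rw [hAB]; trivial
    exact this
  · rw [r1, r2, ← Set.preimage_inter]
    have : (i ⁻¹' (A ∩ B)).ncard = (A ∩ B).ncard := by
      apply Set.ncard_preimage_of_injective_subset_range i.injective
      intro x _
      exact ⟨i.symm x, by simp⟩
    rw [this]
    exact hcard
  · rw [r1, r2]
    intro x y hx hy hadj
    exact hsep (i x) (i y) hx hy (i.map_adj_iff.2 hadj)

/-- collapsing the two twins -/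
def col {W : Type} : Option (Option W) → Option W
  | none => none
  | some x => x

/-- false twin of the root -/
lemma inCl_twin {W : Type} [Finite W] (F : SimpleGraph (Option W)) (hF : InCl F) :
    InCl (F.comap (col : Option (Option W) → Option W)) := by
  intro P hP n H ⟨i⟩
  obtain ⟨a, G₁, ⟨e₁⟩⟩ := exists_fin F
  have h1 : P a G₁ := hF P hP a G₁ ⟨e₁⟩
  have h2 : P 2 (⊥ : SimpleGraph (Fin 2)) := hP.base 2 _ le_rfl
  have hcol : ∀ x : Option (Option W), col x = none ↔ x = none ∨ x = some none := by
    intro x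
    cases x with
    | none => simp [col]
    | some x => cases x <;> simp [col]
  refine hP.subst a 2 n G₁ ⊥ H (e₁.symm none) (fun x => e₁.symm (col (i x)))
    (fun j => i.symm (if j = 0 then none else some none)) h1 h2 ?_ ?_ ?_ ?_ ?_ ?_
  · intro x y hxy
    have := i.symm.injective hxy
    fin_cases x <;> fin_cases y <;> simp_all
  · intro x
    refine ⟨i.symm (some (e₁ x)), ?_⟩
    simp [col]
  · intro x
    constructor
    · intro h
      have h' := e₁.symm.injective h
      rw [hcol] at h'
      rcases h' with h' | h'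
      · refine ⟨0, ?_⟩
        simp [← h']
      · refine ⟨1, ?_⟩
        simp [← h']
    · rintro ⟨j, rfl⟩
      fin_cases j <;> simp [col]
  · intro x y hxy hne
    have h' : col (i x) = col (i y) := e₁.symm.injective hxy
    have hne' : col (i x) ≠ none := fun h => hne (by rw [h])
    apply i.injective
    revert h' hne'
    generalize i x = u
    generalize i y = v
    intro h' hne'
    cases u with
    | none => simp [col] at hne'
    | some u =>
      cases v with
      | none => simp [col] at h' hne'; exact absurd h' hne'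
      | some v => simp [col] at h'; rw [h']
  · intro x y _
    rw [e₁.symm.map_adj_iff, ← i.map_adj_iff]
    rfl
  · intro x y
    rw [i.symm.map_adj_iff]
    fin_cases x <;> fin_cases y <;> simp [col]


/-- one level of the construction: `H` is the graph whose vertices are joined to the root
by copies of the rooted graph `F` -/
def step {V W : Type} (H : SimpleGraph V) (F : SimpleGraph (Option W)) :
    SimpleGraph (Option (V ⊕ V × W)) where
  Adj x y := match x, y with
    | none, none => False
    | none, some (Sum.inl _) => False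
    | none, some (Sum.inr (_, w)) => F.Adj none (some w)
    | some (Sum.inl _), none => False
    | some (Sum.inl z), some (Sum.inl z') => H.Adj z z'
    | some (Sum.inl z), some (Sum.inr (z', w)) => z = z' ∧ F.Adj none (some w)
    | some (Sum.inr (_, w)), none => F.Adj none (some w)
    | some (Sum.inr (z', w)), some (Sum.inl z) => z = z' ∧ F.Adj none (some w)
    | some (Sum.inr (z, w)), some (Sum.inr (z', w')) => z = z' ∧ F.Adj (some w) (some w')
  symm := ⟨by
    intro x y h
    rcases x with _ | x | ⟨z, w⟩ <;> rcases y with _ | y | ⟨z', w'⟩ <;>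
      simp_all [SimpleGraph.adj_comm]⟩
  loopless := ⟨by
    intro x h
    rcases x with _ | x | ⟨z, w⟩ <;> simp_all⟩

/-- the part of the vertex set of `step H F` above `S` -/
def part {V W : Type} (S : Set V) : Set (Option (V ⊕ V × W)) :=
  {x | match x with
    | none => True
    | some (Sum.inl _) => True
    | some (Sum.inr (z, _)) => z ∈ S}

/-- the block of `z` -/
def blk {V W : Type} (z : V) : Set (Option (V ⊕ V × W)) :=
  {x | match x with
    | none => True
    | some (Sum.inl z') => z' = z
    | some (Sum.inr (z', _)) => z' = z}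

lemma inCl_blk {V W : Type} [Finite W] (H : SimpleGraph V) (F : SimpleGraph (Option W))
    (hF : InCl F) (z : V) : InCl ((step H F).induce (blk z)) := by
  refine (inCl_twin F hF).congr (SimpleGraph.Iso.symm ⟨Equiv.mk
    (fun x => match x with
      | none => ⟨none, trivial⟩
      | some none => ⟨some (Sum.inl z), rfl⟩
      | some (some w) => ⟨some (Sum.inr (z, w)), rfl⟩)
    (fun x => match x with
      | ⟨none, _⟩ => none
      | ⟨some (Sum.inl _), _⟩ => some none
      | ⟨some (Sum.inr (_, w)), _⟩ => some (some w)) ?_ ?_, ?_⟩)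
  · intro x
    rcases x with _ | _ | w <;> rfl
  · intro x
    rcases x with ⟨_ | z' | ⟨z', w⟩, h⟩
    · rfl
    · have h' : z' = z := h
      subst h'
      rfl
    · have h' : z' = z := h
      subst h'
      rfl
  · intro x y
    rcases x with _ | _ | w <;> rcases y with _ | _ | w' <;> simp [step, col, SimpleGraph.adj_comm]


lemma inCl_part_empty {V W : Type} [Finite V] (H : SimpleGraph V) (F : SimpleGraph (Option W))
    (hH : InCl H) : InCl ((step H F).induce (part (∅ : Set V))) := by
  set G := (step H F).induce (part (∅ : Set V)) with hG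
  have hfin : Finite ↥(part (W := W) (∅ : Set V)) := by
    apply Set.Finite.to_subtype
    apply ((Set.finite_range (fun z : V => (some (Sum.inl z) : Option (V ⊕ V × W)))).insert
      none).subset
    intro x hx
    rcases x with _ | z | ⟨z, w⟩
    · simp
    · simp
    · exact absurd hx (by simp [part])
  refine inCl_glue G {x | x.1 = none} {x | x.1 ≠ none} ?_ ?_ ?_ ?_ ?_
  · apply inCl_small
    have : Subsingleton ↥{x : ↥(part (W := W) (∅ : Set V)) | x.1 = none} := by
      constructor
      rintro ⟨⟨a, ha'⟩, ha⟩ ⟨⟨b, hb'⟩, hb⟩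
      simp only [Set.mem_ofPred_eq] at ha hb
      subst ha hb
      rfl
    exact (Finite.card_le_one_iff_subsingleton.2 this).trans (by norm_num)
  · refine hH.congr (SimpleGraph.Iso.symm ⟨Equiv.mk
      (fun z => ⟨⟨some (Sum.inl z), trivial⟩, by simp⟩)
      (fun x => match x with
        | ⟨⟨none, _⟩, h⟩ => absurd rfl h
        | ⟨⟨some (Sum.inl z), _⟩, _⟩ => z
        | ⟨⟨some (Sum.inr (_, _)), h⟩, _⟩ => absurd h (by simp [part])) ?_ ?_, ?_⟩)
    · intro z
      rfl
    · rintro ⟨⟨_ | z | ⟨z, w⟩, h⟩, h'⟩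
      · exact absurd rfl h'
      · rfl
      · exact absurd h (by simp [part])
    · intro x y
      simp [hG, step]
  · ext x
    simp only [Set.mem_union, Set.mem_ofPred_eq, Set.mem_univ, iff_true]
    exact em _
  · have : ({x : ↥(part (W := W) (∅ : Set V)) | x.1 = none} ∩ {x | x.1 ≠ none}) = ∅ := by
      ext x
      simp
    rw [this]
    simp
  · rintro ⟨x, hx'⟩ ⟨y, hy'⟩ hx hy hadj
    simp only [Set.mem_ofPred_eq, not_not, ne_eq] at hx hy
    subst hx
    rcases y with _ | z | ⟨z, w⟩
    · exact hy rfl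
    · simp [hG, step] at hadj
    · exact absurd hy' (by simp [part])

lemma inCl_part {V W : Type} [Finite V] [Finite W] (H : SimpleGraph V)
    (F : SimpleGraph (Option W)) (hH : InCl H) (hF : InCl F) (S : Set V) :
    InCl ((step H F).induce (part S)) := by
  classical
  have hS : S.Finite := Set.toFinite S
  induction S, hS using Set.Finite.induction_on with
  | empty => exact inCl_part_empty H F hH
  | @insert z S hz _ ih =>
    set G := (step H F).induce (part (insert z S)) with hG
    refine inCl_glue G {x | x.1 ∈ part (W := W) S} {x | x.1 ∈ blk (W := W) z} ?_ ?_ ?_ ?_ ?_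
    · refine ih.congr ⟨Equiv.mk (fun x => ⟨x.1.1, x.2⟩)
        (fun x => ⟨⟨x.1, ?_⟩, x.2⟩) (fun x => rfl) (fun x => rfl), ?_⟩
      · rcases x with ⟨_ | y | ⟨y, w⟩, h⟩
        · trivial
        · trivial
        · exact Or.inr h
      · intro x y
        rfl
    · refine (inCl_blk H F hF z).congr ⟨Equiv.mk (fun x => ⟨x.1.1, x.2⟩)
        (fun x => ⟨⟨x.1, ?_⟩, x.2⟩) (fun x => rfl) (fun x => rfl), ?_⟩
      · rcases x with ⟨_ | y | ⟨y, w⟩, h⟩
        · trivial
        · trivial
        · exact Or.inl h
      · intro x y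
        rfl
    · ext ⟨x, hx⟩
      simp only [Set.mem_union, Set.mem_ofPred_eq, Set.mem_univ, iff_true]
      rcases x with _ | y | ⟨y, w⟩
      · left; trivial
      · left; trivial
      · rcases hx with hx | hx
        · right; exact hx
        · left; exact hx
    · have hsub : ({x : ↥(part (W := W) (insert z S)) | x.1 ∈ part (W := W) S} ∩
          {x | x.1 ∈ blk (W := W) z}) ⊆ {⟨none, trivial⟩, ⟨some (Sum.inl z), trivial⟩} := by
        rintro ⟨x, hx⟩ ⟨h1, h2⟩
        rcases x with _ | y | ⟨y, w⟩
        · left; rfl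
        · right
          have : y = z := h2
          subst this
          rfl
        · exfalso
          have h1' : y ∈ S := h1
          have h2' : y = z := h2
          exact hz (h2' ▸ h1')
      refine (Set.ncard_le_ncard hsub (Set.toFinite _)).trans ?_
      refine (Set.ncard_insert_le _ _).trans ?_
      rw [Set.ncard_singleton]
    · rintro ⟨x, hx'⟩ ⟨y, hy'⟩ hx hy hadj
      rcases x with _ | x | ⟨x, w⟩
      · exact hx trivial
      · rcases y with _ | y | ⟨y, w'⟩
        · exact hy trivial
        · exact hy trivial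
        · have h1 : y = z := by
            rcases hy' with h | h
            · exact h
            · exact absurd h hy
          have h2 : x = y := by
            have : (step H F).Adj (some (Sum.inl x)) (some (Sum.inr (y, w'))) := hadj
            exact this.1
          exact hx (h2.trans h1)
      · rcases y with _ | y | ⟨y, w'⟩
        · exact hy trivial
        · exact hy trivial
        · have h1 : y = z := by
            rcases hy' with h | h
            · exact h
            · exact absurd h hy
          have h2 : x = y := by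
            have : (step H F).Adj (some (Sum.inr (x, w))) (some (Sum.inr (y, w'))) := hadj
            exact this.1
          exact hx (h2.trans h1)

lemma inCl_step {V W : Type} [Finite V] [Finite W] (H : SimpleGraph V)
    (F : SimpleGraph (Option W)) (hH : InCl H) (hF : InCl F) : InCl (step H F) := by
  have h := inCl_part H F hH hF Set.univ
  have hu : part (W := W) (Set.univ : Set V) = Set.univ := by
    ext x
    rcases x with _ | y | ⟨y, w⟩ <;> simp [part]
  rw [hu] at h
  exact h.congr (SimpleGraph.induceUnivIso (step H F)).symm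

/-- triangle freeness in elementary form -/
def TF {V : Type} (G : SimpleGraph V) : Prop :=
  ∀ a b c, G.Adj a b → G.Adj b c → ¬ G.Adj a c

lemma TF.step {V W : Type} {H : SimpleGraph V} {F : SimpleGraph (Option W)}
    (hH : TF H) (hF : TF F) : TF (step H F) := by
  intro a b c hab hbc hac
  rcases a with _ | a | ⟨a, w⟩ <;> rcases b with _ | b | ⟨b, w'⟩ <;>
    rcases c with _ | c | ⟨c, w''⟩ <;>
    simp only [SubstGlue.step] at hab hbc hac
  · exact hF _ _ _ hab hbc.2 hac
  · exact hH _ _ _ hab hbc hac
  · obtain ⟨rfl, h1⟩ := hbc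
    obtain ⟨rfl, h2⟩ := hac
    exact H.loopless.irrefl _ hab
  · obtain ⟨rfl, h1⟩ := hbc
    obtain ⟨rfl, h2⟩ := hab
    exact H.loopless.irrefl _ hac
  · exact hF _ _ _ hab.2 hbc.2 hac.2
  · exact hF _ _ _ hab hac.2 hbc
  · obtain ⟨rfl, h1⟩ := hab
    obtain ⟨rfl, h2⟩ := hac
    exact H.loopless.irrefl _ hbc
  · exact hF _ _ _ hab.2 hac.2 hbc.2
  · exact hF _ _ _ hac hab.2 hbc
  · exact hF _ _ _ hac.2 hab.2 hbc.2
  · exact hF _ _ _ hab.2 hbc.2 hac.2

/-- `F` with root colour set of size at least `j` cannot be coloured with `c` colours -/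
def Bad {W : Type} (c j : ℕ) (F : SimpleGraph (Option W)) : Prop :=
  ∀ φ : W → Fin c, (∀ w w', F.Adj (some w) (some w') → φ w ≠ φ w') →
    ∀ S : Finset (Fin c), j ≤ S.card → ∃ w, F.Adj none (some w) ∧ φ w ∈ S

lemma Bad.step {V W : Type} {c j : ℕ} {H : SimpleGraph V} {F : SimpleGraph (Option W)}
    (hF : Bad c (j + 1) F) (hH : ¬ H.Colorable j) : Bad c j (step H F) := by
  classical
  intro φ hφ S hS
  obtain ⟨S', hS'S, hS'⟩ := Finset.exists_subset_card_eq hS
  have hz : ∃ z : V, φ (Sum.inl z) ∉ S' := by
    by_contra hcon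
    push Not at hcon
    apply hH
    let e : S' ≃ Fin j := S'.equivFinOfCardEq hS'
    refine ⟨SimpleGraph.Coloring.mk (fun z => e ⟨φ (Sum.inl z), hcon z⟩) ?_⟩
    intro v w hvw heq
    have := e.injective heq
    exact hφ (Sum.inl v) (Sum.inl w) hvw (congrArg Subtype.val this)
  obtain ⟨z, hz⟩ := hz
  obtain ⟨w, hw1, hw2⟩ := hF (fun w => φ (Sum.inr (z, w)))
    (fun w w' h => hφ (Sum.inr (z, w)) (Sum.inr (z, w')) ⟨rfl, h⟩)
    (insert (φ (Sum.inl z)) S') (by rw [Finset.card_insert_of_notMem hz, hS'])
  refine ⟨Sum.inr (z, w), hw1, ?_⟩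
  rcases Finset.mem_insert.1 hw2 with h | h
  · exact absurd h.symm (hφ (Sum.inl z) (Sum.inr (z, w)) ⟨rfl, hw1⟩)
  · exact hS'S h

/-- the rooted edge -/
def edge : SimpleGraph (Option Unit) := ⊤

lemma TF.edge : TF edge := by
  intro a b c hab hbc hac
  rcases a with _ | a <;> rcases b with _ | b <;> rcases c with _ | c <;>
    simp [SubstGlue.edge] at hab hbc hac

lemma Bad.edge (c : ℕ) : Bad c c edge := by
  intro φ _ S hS
  have hS' : S = Finset.univ := by
    apply Finset.eq_univ_of_card
    rw [Fintype.card_fin]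
    exact le_antisymm ((Finset.card_le_univ S).trans (by simp)) hS
  refine ⟨(), by simp [SubstGlue.edge], by rw [hS']; exact Finset.mem_univ _⟩

/-- existence of the rooted graphs, descending in `j` -/
lemma exists_rooted {V : Type} [Finite V] (H : SimpleGraph V) (hH : InCl H) (hTF : TF H)
    (N : ℕ) (hN : ¬ H.Colorable N) (d : ℕ) (hd : d ≤ N + 1) :
    ∃ (W : Type) (_ : Finite W) (F : SimpleGraph (Option W)),
      InCl F ∧ TF F ∧ Bad (N + 1) (N + 1 - d) F := by
  induction d with
  | zero =>
    refine ⟨Unit, inferInstance, edge, inCl_small _ (by simp), TF.edge, Bad.edge _⟩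
  | succ d ih =>
    obtain ⟨W, hW, F, h1, h2, h3⟩ := ih (by omega)
    refine ⟨V ⊕ V × W, inferInstance, step H F, inCl_step H F hH h1, TF.step hTF h2, ?_⟩
    have e : N + 1 - d = (N + 1 - (d + 1)) + 1 := by omega
    rw [e] at h3
    refine Bad.step h3 ?_
    intro hc
    exact hN (hc.mono (by omega))

lemma exists_graph (N : ℕ) : ∃ (V : Type) (_ : Finite V) (H : SimpleGraph V),
    InCl H ∧ TF H ∧ ¬ H.Colorable N := by
  induction N with
  | zero =>
    refine ⟨Unit, inferInstance, ⊥, inCl_small _ (by simp), ?_, ?_⟩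
    · intro a b c hab
      exact absurd hab (by simp)
    · intro h
      rw [SimpleGraph.colorable_zero_iff] at h
      exact h.elim ()
  | succ N ih =>
    obtain ⟨V, hV, H, h1, h2, h3⟩ := ih
    obtain ⟨W, hW, F, g1, g2, g3⟩ := exists_rooted H h1 h2 N h3 (N + 1) le_rfl
    refine ⟨Option W, inferInstance, F, g1, g2, ?_⟩
    rintro ⟨φ⟩
    obtain ⟨w, _, hw⟩ := g3 (fun w => φ (some w)) (fun w w' h => φ.valid h) ∅ (by simp)
    simp at hw

end Pool.Agent.H112R3.SubstGlue
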